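import Pool.Agent.H50.LV.Targets

set_option autoImplicit false

open Finset MeasureTheory
open scoped Polynomial

namespace Pool.Agent.H33.LVE

open Pool.Agent.H24.CL Pool.Agent.H24.LV Pool.Agent.H50.LV

theorem card_bd (c W : ℝ) (hW : 0 ≤ W) (s : Finset ℤ) (h : ∀ j ∈ s, |c + j| ≤ W) :
    (s.card : ℝ) ≤ 2 * W + 1 := by
  have h1 : s ⊆ Icc ⌈-c - W⌉ ⌊-c + W⌋ := by
    intro j hj
    have h2 := abs_le.1 (h j hj)
    rw [mem_Icc]
    constructor
    · rw [Int.ceil_le]; linarith
    · rw [Int.le_floor]; linarith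
  have h2 := card_le_card h1
  rw [Int.card_Icc] at h2
  have h3 : (s.card : ℝ) ≤ ((⌊-c + W⌋ + 1 - ⌈-c - W⌉).toNat : ℝ) := by exact_mod_cast h2
  refine h3.trans ?_
  have h4 : ((⌊-c + W⌋ + 1 - ⌈-c - W⌉).toNat : ℝ) = ((max (⌊-c + W⌋ + 1 - ⌈-c - W⌉) 0 : ℤ) : ℝ) := by
    rw [← Int.toNat_eq_max]; norm_cast
  rw [h4]
  push_cast
  have h5 := Int.floor_le (-c + W)
  have h6 := Int.le_ceil (-c - W)
  apply max_le
  · linarith
  · linarith

theorem pf_BND (h1 : T_SMA) (h2 : T_SMB) : T_BND := by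
  intro C A Z N R ζ T m τ s hC hA hZ hN hT hTR
  have hT1 : (1 : ℝ) ≤ T := by exact_mod_cast hT
  have hT0 : (0 : ℝ) < T := by linarith
  have hN0 : 0 < N := by linarith
  have hR1 : 1 ≤ R := hT1.trans hTR
  set s1 := s.filter (fun j : ℤ => |N * (ζ + j / T)| ≤ Z) with hs1
  have hsplit : ∑ j ∈ s, hh C A Z τ (N * (ζ + j / T)) =
      ∑ j ∈ s1, C * ∑ i, A / (1 + A * |N * (ζ + j / T) - τ i|) +
      C * ∑ j ∈ s, (if Z < |N * (ζ + j / T)| then 1 / (N * (ζ + j / T)) ^ 2 else 0) := by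
    rw [hs1, sum_filter, mul_sum, ← sum_add_distrib]
    refine sum_congr rfl fun j _ => ?_
    unfold hh
    by_cases h : |N * (ζ + j / T)| ≤ Z
    · rw [if_pos h, if_pos h, if_neg (not_lt.2 h)]; ring
    · rw [if_neg h, if_neg h, if_pos (not_le.1 h)]; ring
  rw [hsplit]
  have hcard : (s1.card : ℝ) + 1 ≤ 2 * Z * R + 2 := by
    have h3 : (s1.card : ℝ) ≤ 2 * (Z * R) + 1 := by
      refine card_bd (T * ζ) (Z * R) (by positivity) s1 ?_
      intro j hj
      rw [hs1, mem_filter] at hj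
      have h4 := hj.2
      have h5 : N * (ζ + j / T) = (N / T) * (T * ζ + j) := by field_simp
      rw [h5, abs_mul, abs_of_pos (by positivity)] at h4
      have h6 : |T * ζ + j| ≤ Z * T / N := by
        rw [le_div_iff₀ hN0]
        rw [div_mul_eq_mul_div, div_le_iff₀ hT0] at h4
        linarith
      refine h6.trans ?_
      rw [div_le_iff₀ hN0]
      have h7 : Z * T ≤ Z * R := mul_le_mul_of_nonneg_left hTR (by linarith)
      have h8 : Z * R ≤ Z * R * N := le_mul_of_one_le_right (by positivity) hN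
      linarith
    linarith
  have hlog : Real.log ((s1.card : ℝ) + 1) ≤ Real.log (2 * Z * R + 2) :=
    Real.log_le_log (by positivity) hcard
  have hA1 : ∑ j ∈ s1, C * ∑ i, A / (1 + A * |N * (ζ + j / T) - τ i|) ≤
      C * ∑ i, A / (1 + A * N / T * ‖((T * (ζ - τ i / N) : ℝ) : UnitAddCircle)‖) +
      8 * C * m * (T / N) * (1 + Real.log (2 * Z * R + 2)) := by
    rw [← mul_sum, sum_comm]
    have h3 : ∀ i ∈ (univ : Finset (Fin m)), ∑ j ∈ s1, A / (1 + A * |N * (ζ + j / T) - τ i|) ≤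
        A / (1 + A * N / T * ‖((T * (ζ - τ i / N) : ℝ) : UnitAddCircle)‖) +
        8 * (T / N) * (1 + Real.log (2 * Z * R + 2)) := by
      intro i _
      have h4 := h1 A (A * N / T) (T * (ζ - τ i / N)) s1 hA (by positivity)
      have h5 : ∀ j ∈ s1, A / (1 + A * |N * (ζ + j / T) - τ i|) =
          A / (1 + A * N / T * |T * (ζ - τ i / N) + j|) := by
        intro j _
        have h6 : N * (ζ + j / T) - τ i = (N / T) * (T * (ζ - τ i / N) + j) := by
          field_simp; ring
        rw [h6, abs_mul, abs_of_pos (by positivity : (0 : ℝ) < N / T)]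
        congr 2
        ring
      rw [sum_congr rfl h5]
      refine h4.trans ?_
      have h6 : A / (A * N / T) = T / N := by field_simp
      rw [h6]
      have h7 : 8 * (T / N) * (1 + Real.log ((s1.card : ℝ) + 1)) ≤
          8 * (T / N) * (1 + Real.log (2 * Z * R + 2)) :=
        mul_le_mul_of_nonneg_left (by linarith) (by positivity)
      linarith
    have h4 := sum_le_sum h3
    rw [sum_add_distrib, sum_const, card_univ, Fintype.card_fin, nsmul_eq_mul] at h4
    have h5 := mul_le_mul_of_nonneg_left h4 (by linarith : (0 : ℝ) ≤ C)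
    refine h5.trans (le_of_eq ?_)
    ring
  have hB := h2 N T R Z ζ s hN hT1 hTR hZ
  have hB2 := mul_le_mul_of_nonneg_left hB (by linarith : (0 : ℝ) ≤ C)
  have h9 : C * (50 * R / Z) = 50 * C * R / Z := by ring
  linarith

end Pool.Agent.H33.LVE
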