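import Pool.Agent.H50.LV.Targets

set_option autoImplicit false

open Finset MeasureTheory
open scoped Polynomial

namespace Pool.Agent.H33.LVE

open Pool.Agent.H24.CL Pool.Agent.H24.LV Pool.Agent.H50.LV

theorem mvt (θ θ' : ℝ → ℝ) (hd : ∀ y, HasDerivAt θ (θ' y) y) (u v : ℝ) (huv : u < v) :
    ∃ ξ ∈ Set.Ioo u v, θ v - θ u = (v - u) * θ' ξ := by
  obtain ⟨ξ, hξ, h⟩ := exists_hasDerivAt_eq_slope θ θ' huv
    (fun y _ => (hd y).continuousAt.continuousWithinAt) (fun y _ => hd y)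
  refine ⟨ξ, hξ, ?_⟩
  have : v - u ≠ 0 := ne_of_gt (sub_pos.2 huv)
  rw [h]; field_simp

theorem pf_MVB : T_MVB := by
  intro θ θ' α β hα hαβ hβ hd hMA
  -- the key estimates
  have key : ∀ t μ p q : ℝ, 1 ≤ μ → 1 / μ < q - p → (∀ y ∈ Set.Icc p q, |t + θ y| ≤ μ) →
      ∀ c : ℝ, (∀ ξ ∈ Set.Ioo p q, c ≤ |θ' ξ|) → c ≤ 2 * μ * μ := by
    intro t μ p q hμ hpq hy c hc
    have hμ0 : 0 < μ := by linarith
    have hpq0 : 0 < q - p := lt_trans (by positivity) hpq
    have hpq1 : p < q := by linarith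
    obtain ⟨ξ, hξ, h⟩ := mvt θ θ' hd p q hpq1
    have hcξ := hc ξ hξ
    have e1 : |θ q - θ p| ≤ 2 * μ := by
      have e2 := hy q ⟨hpq1.le, le_rfl⟩
      have e3 := hy p ⟨le_rfl, hpq1.le⟩
      have e4 : θ q - θ p = (t + θ q) - (t + θ p) := by ring
      rw [e4]
      exact (abs_sub _ _).trans (by linarith)
    rw [h, abs_mul, abs_of_pos hpq0] at e1
    have e5 : 1 ≤ (q - p) * μ := by
      rw [div_lt_iff₀ hμ0] at hpq; exact hpq.le
    have e6 : |θ' ξ| ≤ (q - p) * μ * |θ' ξ| := le_mul_of_one_le_left (abs_nonneg _) e5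
    have e7 : (q - p) * μ * |θ' ξ| = μ * ((q - p) * |θ' ξ|) := by ring
    have e8 : μ * ((q - p) * |θ' ξ|) ≤ μ * (2 * μ) := mul_le_mul_of_nonneg_left e1 hμ0.le
    nlinarith
  rcases hMA with hM | hA
  · -- monotone
    refine ⟨-θ α, fun t μ p q hμ hαp hqβ hpq hy => ?_⟩
    have hμ0 : 0 < μ := by linarith
    have hpq0 : 0 < q - p := lt_trans (by positivity) hpq
    have hpq1 : p < q := by linarith
    have hpm : p ∈ Set.Icc α β := ⟨hαp, by linarith⟩
    have h1 : |θ' p| ≤ 2 * μ * μ := by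
      refine key t μ p q hμ hpq hy _ ?_
      intro ξ hξ
      exact hM hpm ⟨by linarith [hξ.1], by linarith [hξ.2]⟩ hξ.1.le
    have h2 : |θ p - θ α| ≤ 2 * (2 * μ * μ) := by
      rcases hαp.eq_or_lt with h | h
      · rw [h]; simp; positivity
      · obtain ⟨ξ, hξ, h3⟩ := mvt θ θ' hd α p h
        rw [h3, abs_mul, abs_of_pos (by linarith)]
        have h4 : |θ' ξ| ≤ |θ' p| :=
          hM ⟨by linarith [hξ.1], by linarith [hξ.2]⟩ hpm hξ.2.le
        have h5 : p - α ≤ 2 := by linarith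
        exact mul_le_mul h5 (h4.trans h1) (abs_nonneg _) (by norm_num)
    have h3 := hy p ⟨le_rfl, hpq1.le⟩
    have h4 : t - -θ α = (t + θ p) - (θ p - θ α) := by ring
    rw [h4]
    have h5 := abs_sub (t + θ p) (θ p - θ α)
    nlinarith
  · refine ⟨-θ β, fun t μ p q hμ hαp hqβ hpq hy => ?_⟩
    have hμ0 : 0 < μ := by linarith
    have hpq0 : 0 < q - p := lt_trans (by positivity) hpq
    have hpq1 : p < q := by linarith
    have hqm : q ∈ Set.Icc α β := ⟨by linarith, hqβ⟩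
    have h1 : |θ' q| ≤ 2 * μ * μ := by
      refine key t μ p q hμ hpq hy _ ?_
      intro ξ hξ
      exact hA ⟨by linarith [hξ.1], by linarith [hξ.2]⟩ hqm hξ.2.le
    have h2 : |θ β - θ q| ≤ 2 * (2 * μ * μ) := by
      rcases hqβ.eq_or_lt with h | h
      · rw [h]; simp; positivity
      · obtain ⟨ξ, hξ, h3⟩ := mvt θ θ' hd q β h
        rw [h3, abs_mul, abs_of_pos (by linarith)]
        have h4 : |θ' ξ| ≤ |θ' q| :=
          hA hqm ⟨by linarith [hξ.1], by linarith [hξ.2]⟩ hξ.1.le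
        have h5 : β - q ≤ 2 := by linarith
        exact mul_le_mul h5 (h4.trans h1) (abs_nonneg _) (by norm_num)
    have h3 := hy q ⟨hpq1.le, le_rfl⟩
    have h4 : t - -θ β = (t + θ q) + (θ β - θ q) := by ring
    rw [h4]
    have h5 := abs_add_le (t + θ q) (θ β - θ q)
    nlinarith

end Pool.Agent.H33.LVE
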