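import Pool.Agent.H50.LV.Targets
import Pool.Agent.H31.LV.Basic

set_option autoImplicit false

open Finset MeasureTheory
open scoped Polynomial

namespace Pool.Agent.H33.LVE

open Pool.Agent.H24.CL Pool.Agent.H24.LV Pool.Agent.H50.LV

theorem norm_OP_le (P : ℝ[X]) (t a b : ℝ) (hab : a ≤ b) : ‖OP P t a b‖ ≤ b - a := by
  unfold OP
  have h := intervalIntegral.norm_integral_le_of_norm_le_const (a := a) (b := b) (C := 1)
    (f := fun y => e ((t * y + P.eval y : ℝ) : UnitAddCircle)) (by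
      intro y _
      rw [Pool.Agent.H31.LV.e_coe, Pool.Agent.H31.LV.norm_ee])
  rw [abs_of_nonneg (by linarith), one_mul] at h
  exact h

theorem Sgn_sub {P : ℝ[X]} {a b a' b' : ℝ} (h : Sgn P a b) (ha : a ≤ a') (hb : b' ≤ b) :
    Sgn P a' b' := by
  rcases h with h | h
  · exact Or.inl fun y hy => h y ⟨ha.trans hy.1, hy.2.trans hb⟩
  · exact Or.inr fun y hy => h y ⟨ha.trans hy.1, hy.2.trans hb⟩

theorem pf_PCE (h1 : T_SPL) (h2 : T_MVB) : T_PCE := by
  refine ⟨200, by norm_num, fun P α β hα hαβ hβ hS hM => ?_⟩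
  obtain ⟨t₀, ht⟩ := h2 (fun y => (Polynomial.derivative P).eval y) (fun y => (DD P).eval y) α β
    hα hαβ hβ (fun y => (Polynomial.derivative P).hasDerivAt y) hM
  refine ⟨t₀, fun t a b ha hab hb => ?_⟩
  have htr : ‖OP P t a b‖ ≤ 2 := (norm_OP_le P t a b hab).trans (by linarith)
  have hn0 : 0 ≤ ‖OP P t a b‖ := norm_nonneg _
  have hx0 : 0 ≤ |t - t₀| := abs_nonneg _
  rcases le_or_gt (|t - t₀|) 12 with hc | hc
  · rw [le_div_iff₀ (by linarith)]
    have : ‖OP P t a b‖ ^ 2 ≤ 4 := by nlinarith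
    nlinarith [sq_nonneg ‖OP P t a b‖]
  · set x := |t - t₀| with hx
    have hμ2 : Real.sqrt (x / 6) ^ 2 = x / 6 := Real.sq_sqrt (by linarith)
    set μ := Real.sqrt (x / 6) with hμ
    have hμ1 : 1 ≤ μ := by
      rw [hμ]; apply Real.one_le_sqrt.2; linarith
    have hμ0 : 0 < μ := by linarith
    obtain ⟨p, q, hap, hpq, hqb, h3, h4⟩ := h1 P t a b μ hab hμ0 (Sgn_sub hS ha hb)
    have h5 : q - p ≤ 1 / μ := by
      by_contra hcon
      push Not at hcon
      have h6 : p < q := by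
        have : 0 < 1 / μ := by positivity
        linarith
      have h7 := ht t μ p q hμ1 (ha.trans hap) (hqb.trans hb) hcon (h3 h6)
      rw [hμ2] at h7
      linarith
    have h6 : ‖OP P t a b‖ ≤ 3 / μ := by
      have : 3 / μ = 2 / μ + 1 / μ := by ring
      linarith
    have h7 : ‖OP P t a b‖ ^ 2 ≤ (3 / μ) ^ 2 := by
      exact pow_le_pow_left₀ hn0 h6 2
    rw [div_pow, hμ2] at h7
    refine h7.trans ?_
    rw [div_le_div_iff₀ (by linarith) (by linarith)]
    linarith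

end Pool.Agent.H33.LVE
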