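import Pool.Agent.H50.LV.Targets

set_option autoImplicit false

open Finset MeasureTheory
open scoped Polynomial

namespace Pool.Agent.H33.LVE

open Pool.Agent.H24.CL Pool.Agent.H24.LV Pool.Agent.H50.LV

theorem pf_PIE (h1 : T_PAR) : T_PIE := by
  intro k P hP
  have hd1 : (DD P).natDegree ≤ k := by
    unfold DD
    have h2 := Polynomial.natDegree_derivative_le (Polynomial.derivative P)
    have h3 := Polynomial.natDegree_derivative_le P
    omega
  have hd2 : (Polynomial.derivative (DD P)).natDegree ≤ k := by
    have h2 := Polynomial.natDegree_derivative_le (DD P)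
    omega
  obtain ⟨x, hx0, hx1, hxm, hx⟩ := h1 k (DD P) (Polynomial.derivative (DD P)) hd1 hd2
  refine ⟨x, hx0, hx1, hxm, fun i hi => ?_⟩
  obtain ⟨hs, hm⟩ := hx i hi
  refine ⟨hs, ?_⟩
  have hc : ContinuousOn (fun y => (DD P).eval y) (Set.Icc (x i) (x (i + 1))) :=
    (DD P).continuous.continuousOn
  have hdf : DifferentiableOn ℝ (fun y => (DD P).eval y)
      (interior (Set.Icc (x i) (x (i + 1)))) :=
    (DD P).differentiable.differentiableOn
  -- DD P is monotone or antitone
  have hma : MonotoneOn (fun y => (DD P).eval y) (Set.Icc (x i) (x (i + 1))) ∨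
      AntitoneOn (fun y => (DD P).eval y) (Set.Icc (x i) (x (i + 1))) := by
    rcases hm with hm | hm
    · left
      refine monotoneOn_of_deriv_nonneg (convex_Icc _ _) hc hdf ?_
      intro y hy
      rw [Polynomial.deriv]
      exact hm y (interior_subset hy)
    · right
      refine antitoneOn_of_deriv_nonpos (convex_Icc _ _) hc hdf ?_
      intro y hy
      rw [Polynomial.deriv]
      exact hm y (interior_subset hy)
  unfold MA
  rcases hs with hs | hs
  · rcases hma with hma | hma
    · left
      intro a ha b hb hab
      simp only
      rw [abs_of_nonneg (hs a ha), abs_of_nonneg (hs b hb)]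
      exact hma ha hb hab
    · right
      intro a ha b hb hab
      simp only
      rw [abs_of_nonneg (hs a ha), abs_of_nonneg (hs b hb)]
      exact hma ha hb hab
  · rcases hma with hma | hma
    · right
      intro a ha b hb hab
      simp only
      rw [abs_of_nonpos (hs a ha), abs_of_nonpos (hs b hb)]
      exact neg_le_neg (hma ha hb hab)
    · left
      intro a ha b hb hab
      simp only
      rw [abs_of_nonpos (hs a ha), abs_of_nonpos (hs b hb)]
      exact neg_le_neg (hma ha hb hab)

end Pool.Agent.H33.LVE
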