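import Pool.Agent.H33.LVE.PCE

set_option autoImplicit false

open Finset MeasureTheory
open scoped Polynomial

namespace Pool.Agent.H33.LVE

open Pool.Agent.H24.CL Pool.Agent.H24.LV Pool.Agent.H50.LV

theorem LP_pos (k : ℕ) (P : ℝ[X]) : 1 ≤ LP k P := by
  unfold LP
  have : 0 ≤ ∑ j ∈ Icc 2 k, |P.coeff j| := sum_nonneg fun _ _ => abs_nonneg _
  linarith

theorem der_bd (k : ℕ) (P : ℝ[X]) (hP : P.natDegree ≤ k) (h1 : P.coeff 1 = 0) (y : ℝ)
    (hy : |y| ≤ 1) : |(Polynomial.derivative P).eval y| ≤ k * LP k P := by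
  have hd : (Polynomial.derivative P).natDegree < k + 1 := by
    have := Polynomial.natDegree_derivative_le P
    omega
  rw [Polynomial.eval_eq_sum_range' hd]
  refine (abs_sum_le_sum_abs _ _).trans ?_
  set f : ℕ → ℝ := fun j => if j ∈ Icc 2 k then k * |P.coeff j| else 0 with hf
  have hf0 : ∀ j, 0 ≤ f j := by
    intro j; simp only [hf]; split_ifs
    · positivity
    · exact le_rfl
  have h2 : ∀ i ∈ range (k + 1), |(Polynomial.derivative P).coeff i * y ^ i| ≤ f (i + 1) := by
    intro i _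
    rw [Polynomial.coeff_derivative, abs_mul, abs_mul, abs_pow]
    have hy1 : |y| ^ i ≤ 1 := pow_le_one₀ (abs_nonneg _) hy
    have hi1 : |(i : ℝ) + 1| = i + 1 := abs_of_nonneg (by positivity)
    rw [hi1]
    by_cases hm : i + 1 ∈ Icc 2 k
    · simp only [hf, if_pos hm]
      rw [mem_Icc] at hm
      have hik : ((i : ℝ) + 1) ≤ k := by exact_mod_cast hm.2
      have h3 : |P.coeff (i + 1)| * (i + 1) * |y| ^ i ≤ |P.coeff (i + 1)| * (i + 1) * 1 :=
        mul_le_mul_of_nonneg_left hy1 (by positivity)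
      have h4 : |P.coeff (i + 1)| * ((i : ℝ) + 1) ≤ |P.coeff (i + 1)| * k :=
        mul_le_mul_of_nonneg_left hik (abs_nonneg _)
      linarith
    · have hz : P.coeff (i + 1) = 0 := by
        rw [mem_Icc] at hm
        push Not at hm
        by_cases hi : i = 0
        · subst hi; exact h1
        · apply Polynomial.coeff_eq_zero_of_natDegree_lt
          have := hm (by omega)
          omega
      rw [hz]; simp
      exact hf0 _
  refine (sum_le_sum h2).trans ?_
  have h3 : ∑ i ∈ range (k + 1), f (i + 1) ≤ ∑ i ∈ range (k + 2), f i := by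
    rw [sum_range_succ' f (k + 1)]
    linarith [hf0 0]
  refine h3.trans ?_
  have h4 : ∑ i ∈ range (k + 2), f i = k * ∑ j ∈ Icc 2 k, |P.coeff j| := by
    simp only [hf]
    rw [sum_ite_mem, mul_sum]
    congr 1
    ext j
    simp only [mem_inter, mem_range, mem_Icc]
    omega
  rw [h4]
  unfold LP
  have : (0 : ℝ) ≤ k := Nat.cast_nonneg _
  nlinarith

theorem pf_TAI (h1 : T_SPL) (h2 : T_PIE) (h3 : T_SUB) : T_TAI := by
  intro k
  have hk0 : (0 : ℝ) ≤ k := Nat.cast_nonneg _
  refine ⟨36 * (2 * k + 1) ^ 2, by nlinarith, fun P t a b hP hc1 ha hab hb hCt => ?_⟩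
  have hL := LP_pos k P
  have ht1 : 2 * (k * LP k P) + 1 ≤ |t| := by
    refine le_trans ?_ hCt
    nlinarith [mul_nonneg hk0 (by linarith : (0 : ℝ) ≤ LP k P), mul_nonneg hk0 hk0,
      mul_nonneg (mul_nonneg hk0 hk0) (by linarith : (0 : ℝ) ≤ LP k P)]
  have ht0 : 0 < |t| := by
    nlinarith [mul_nonneg hk0 (by linarith : (0 : ℝ) ≤ LP k P)]
  obtain ⟨x, hx0, hx1, hxm, hx⟩ := h2 k P hP
  have hcont : Continuous fun y : ℝ => e ((t * y + P.eval y : ℝ) : UnitAddCircle) := by
    have : (fun y : ℝ => e ((t * y + P.eval y : ℝ) : UnitAddCircle)) =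
        fun y : ℝ => Pool.Agent.H31.LV.ee (t * y + P.eval y) := by
      funext y; rw [Pool.Agent.H31.LV.e_coe]
    rw [this]
    exact Pool.Agent.H31.LV.continuous_ee.comp
      ((continuous_const.mul continuous_id).add P.continuous)
  have h5 : ‖∫ y in a..b, e ((t * y + P.eval y : ℝ) : UnitAddCircle)‖ ≤
      ∑ i ∈ range (2 * k + 1), 6 / |t| := by
    refine h3 _ (2 * k + 1) x (fun _ => 6 / |t|) a b hcont hxm (by rw [hx0]; exact ha) hab
      (by rw [hx1]; exact hb) ?_
    intro i hi a' b' ha' hab' hb'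
    have hxi0 : -1 ≤ x i := by rw [← hx0]; exact hxm (Nat.zero_le _)
    have hxi1 : x (i + 1) ≤ 1 := by rw [← hx1]; exact hxm (by omega)
    obtain ⟨p, q, hap, hpq, hqb, h6, h7⟩ := h1 P t a' b' (|t| / 3) hab' (by positivity)
      (Sgn_sub (hx i hi).1 ha' hb')
    have h8 : ¬ p < q := by
      intro hlt
      have h9 := h6 hlt p ⟨le_rfl, hpq⟩
      have h10 := der_bd k P hP hc1 p (abs_le.2 ⟨by linarith, by linarith⟩)
      have h11 : |t| ≤ |t + (Polynomial.derivative P).eval p| +
          |(Polynomial.derivative P).eval p| := by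
        have := abs_sub (t + (Polynomial.derivative P).eval p) ((Polynomial.derivative P).eval p)
        rwa [add_sub_cancel_right] at this
      linarith
    have h9 : q - p = 0 := by linarith [le_antisymm hpq (not_lt.1 h8)]
    rw [h9, add_zero] at h7
    have h10 : 2 / (|t| / 3) = 6 / |t| := by
      field_simp; norm_num
    rw [h10] at h7
    exact h7
  rw [sum_const, card_range, nsmul_eq_mul] at h5
  have h6 : ‖OP P t a b‖ ≤ ((2 * k + 1 : ℕ) : ℝ) * (6 / |t|) := h5
  have h7 := pow_le_pow_left₀ (norm_nonneg _) h6 2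
  refine h7.trans (le_of_eq ?_)
  push_cast
  rw [mul_pow, div_pow, sq_abs]
  ring

end Pool.Agent.H33.LVE
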